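import Pool.Agent.J6H55.FM.Stm
import Pool.Agent.Q72.OK.Brody
import Pool.Agent.Q72.OK.Lift
import Pool.Agent.Y221.PD.Imp

/-!
# FM-CLO: Brody's theorem for families

The set of the parameters whose fibre contains a nonconstant entire curve is closed.
-/

set_option autoImplicit false
set_option linter.overlappingInstances false

open Filter Topology Metric Set MvPolynomial

namespace Pool.Agent.J6H76.FM

open Pool.Agent.J6H55.FM (IsRel FamCurve S_clo)
open Pool.Agent.Q72.OK (Mat Phi PM Phi_smul Phi_inj HomFun HolO HolP rescale exists_lift dense_ne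
  continuousAt_Phi holP_limit CConv aff aff_diff norm_fderiv_aff)

variable {β : Type} {M : ℕ}

/-- no condition -/
def noq (n : ℕ) : Empty → (Fin (n + 1) → ℂ) → ℂ := fun a => a.elim

theorem noq_hom (n : ℕ) : HomFun (noq n) := ⟨fun a => a.elim, fun a => a.elim⟩

theorem holO_of {m : Empty → ℕ} {U : Set ℂ} {φ : ℂ → Mat M} (h : HolP U φ) : HolO m (noq M) U φ := by
  intro z hz
  obtain ⟨V, F, hV, hzV, hd, hF⟩ := h z hz
  exact ⟨V, F, hV, hzV, hd, hF, fun w _ a => a.elim⟩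

/-- the nonzero vectors which lie in the fibre over `c` -/
def Z (FF : Set (MvPolynomial (β ⊕ Fin (M + 1)) ℂ)) (c : β → ℂ) : Set (Fin (M + 1) → ℂ) :=
  {u | u ≠ 0 ∧ ∀ F ∈ FF, eval (Sum.elim c u) F = 0}

theorem eval_scale {F : MvPolynomial (β ⊕ Fin (M + 1)) ℂ} {e : ℕ}
    (hF : IsWeightedHomogeneous (Sum.elim (fun _ => 0) (fun _ => 1) : β ⊕ Fin (M + 1) → ℕ) F e)
    (c : β → ℂ) (l : ℂ) (u : Fin (M + 1) → ℂ) :
    eval (Sum.elim c (l • u)) F = l ^ e * eval (Sum.elim c u) F := by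
  classical
  rw [eval_eq, eval_eq, Finset.mul_sum]
  refine Finset.sum_congr rfl fun d hd => ?_
  have hw := hF (mem_support_iff.1 hd)
  rw [Finsupp.weight_apply, Finsupp.sum] at hw
  have h1 : ∀ i ∈ d.support, (Sum.elim c (l • u) i) ^ d i =
      l ^ (d i • (Sum.elim (fun _ => 0) (fun _ => 1) : β ⊕ Fin (M + 1) → ℕ) i) *
        (Sum.elim c u i) ^ d i := by
    intro i _
    rcases i with i | i
    · simp
    · simp [mul_pow]
  rw [Finset.prod_congr rfl h1, Finset.prod_mul_distrib, Finset.prod_pow_eq_pow_sum, hw]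
  ring

theorem Z_smul {FF : Set (MvPolynomial (β ⊕ Fin (M + 1)) ℂ)} (hFF : ∀ F ∈ FF, IsRel F) {c : β → ℂ}
    {u : Fin (M + 1) → ℂ} (hu : u ∈ Z FF c) {l : ℂ} (hl : l ≠ 0) : l • u ∈ Z FF c := by
  refine ⟨smul_ne_zero hl hu.1, fun F hF => ?_⟩
  obtain ⟨e, he⟩ := hFF F hF
  rw [eval_scale he, hu.2 F hF, mul_zero]

/-- a curve in the fibre gives large discs with derivative `1` at the centre -/
theorem discs {FF : Set (MvPolynomial (β ⊕ Fin (M + 1)) ℂ)} {c : β → ℂ} {f : Fin (M + 1) → ℂ → ℂ}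
    (hf : FamCurve FF c f) {R : ℝ} (hR : 0 < R) :
    ∃ h : ℂ → Mat M, HolP (ball 0 R) h ∧ (∀ z ∈ ball (0 : ℂ) R, ∃ u ∈ Z FF c, h z = Phi u) ∧
      (∀ z ∈ ball (0 : ℂ) (R / 2), ‖fderiv ℝ h z‖ ≤ 2) ∧ ‖fderiv ℝ h 0‖ = 1 := by
  have hne : ∀ z, (fun i => f i z) ≠ 0 := by
    intro z h0
    obtain ⟨i, hi⟩ := hf.ne z
    exact hi (congrFun h0 i)
  obtain ⟨φ, hφ⟩ : ∃ φ : ℂ → Mat M, ∀ z, φ z = Phi (fun i => f i z) := ⟨_, fun _ => rfl⟩
  have hP : HolP univ φ := fun z _ => ⟨univ, fun z i => f i z, isOpen_univ, mem_univ z,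
    (differentiable_pi.2 hf.hol).differentiableOn, fun w _ => ⟨hne w, hφ w⟩⟩
  have hO : HolO (fun _ : Empty => 0) (noq M) univ φ := holO_of hP
  have hd : Differentiable ℝ φ := fun z => hO.differentiableAt (mem_univ z)
  obtain ⟨z0, hz0⟩ : ∃ z0, fderiv ℝ φ z0 ≠ 0 := by
    by_contra hcon
    push Not at hcon
    obtain ⟨i, j, a, b, hab⟩ := hf.nonconst
    have h1 := is_const_of_fderiv_eq_zero hd hcon a b
    rw [hφ, hφ] at h1
    obtain ⟨l, -, hl⟩ := Phi_inj (hne a) (hne b) h1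
    apply hab
    have h2 := congrFun hl i
    have h3 := congrFun hl j
    simp only [Pi.smul_apply, smul_eq_mul] at h2 h3
    rw [h2, h3]
    ring
  have hpos : 0 < ‖fderiv ℝ φ z0‖ := norm_pos_iff.2 hz0
  obtain ⟨ρ, hρ, hρ2⟩ : ∃ ρ : ℝ, 0 < ρ ∧ 2 * R < ρ * ‖fderiv ℝ φ z0‖ := by
    refine ⟨(2 * R + 1) / ‖fderiv ℝ φ z0‖, by positivity, ?_⟩
    rw [div_mul_cancel₀ _ hpos.ne']
    linarith
  have hO1 : HolO (fun _ : Empty => 0) (noq M) (ball 0 1) (fun z => φ (aff z0 ρ z)) :=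
    (hO.aff (noq_hom M) isOpen_univ z0 ρ).mono (fun _ _ => mem_univ _)
  have h0 : aff z0 ρ 0 = z0 := by simp [aff]
  have hbig : 2 * R < ‖fderiv ℝ (fun z => φ (aff z0 ρ z)) 0‖ := by
    rw [norm_fderiv_aff hρ.le (hd _), h0]
    exact hρ2
  obtain ⟨h, h1, h2, h3, h4⟩ := rescale (S := {A | ∃ u ∈ Z FF c, A = Phi u}) (noq_hom M) hR hO1
    (fun z _ => ⟨_, ⟨hne (aff z0 ρ z), fun F hF => hf.mem F hF _⟩, hφ _⟩) hbig
  exact ⟨h, h1.holP, h2, h3, h4⟩

/-- the limit of the discs -/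
theorem limit {FF : Set (MvPolynomial (β ⊕ Fin (M + 1)) ℂ)} (hFF : ∀ F ∈ FF, IsRel F)
    {c : ℕ → β → ℂ} {c' : β → ℂ} (hc : Tendsto c atTop (𝓝 c')) {h : ℕ → ℂ → Mat M}
    (hH' : ∀ n : ℕ, HolP (ball 0 (n + 1 : ℝ)) (h n))
    (hHS : ∀ n : ℕ, ∀ z ∈ ball (0 : ℂ) (n + 1 : ℝ), ∃ u ∈ Z FF (c n), h n z = Phi u)
    (hHd : ∀ n : ℕ, ∀ z ∈ ball (0 : ℂ) ((n + 1 : ℝ) / 2), ‖fderiv ℝ (h n) z‖ ≤ 2)
    (hH0 : ∀ n : ℕ, ‖fderiv ℝ (h n) 0‖ = 1) :
    ∃ H : ℂ → Mat M, HolP univ H ∧ (∀ z, ∃ u ∈ Z FF c', H z = Phi u) ∧ ‖fderiv ℝ H 0‖ = 1 := by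
  obtain ⟨𝓤, h𝓤⟩ : ∃ 𝓤 : Ultrafilter ℕ, (𝓤 : Filter ℕ) ≤ atTop := by
    refine ⟨hyperfilter ℕ, ?_⟩
    rw [← Nat.cofinite_eq_atTop]
    exact hyperfilter_le_cofinite
  have hcof : ∀ R : ℝ, ∀ᶠ n : ℕ in (𝓤 : Filter ℕ), R ≤ n := by
    intro R
    have h2 : ∀ᶠ n : ℕ in atTop, R ≤ n := by
      filter_upwards [eventually_ge_atTop ⌈R⌉₊] with n hn
      exact (Nat.le_ceil R).trans (by exact_mod_cast hn)
    exact h𝓤 h2
  have hc𝓤 : Tendsto c 𝓤 (𝓝 c') := hc.mono_left h𝓤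
  have hlim : ∀ z : ℂ, ∃ y : Mat M, (∃ u ∈ Z FF c', y = Phi u) ∧
      Tendsto (fun n => h n z) 𝓤 (𝓝 y) := by
    intro z
    have h1 : ∀ n : ℕ, ∃ v : Fin (M + 1) → ℂ, z ∈ ball (0 : ℂ) (n + 1 : ℝ) →
        v ∈ sphere (0 : Fin (M + 1) → ℂ) 1 ∧ h n z = Phi v ∧
          ∀ F ∈ FF, eval (Sum.elim (c n) v) F = 0 := by
      intro n
      by_cases hz : z ∈ ball (0 : ℂ) (n + 1 : ℝ)
      · obtain ⟨u, hu, hzu⟩ := hHS n z hz
        have hn : ‖u‖ ≠ 0 := norm_ne_zero_iff.2 hu.1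
        have hcc : ((‖u‖ : ℂ))⁻¹ ≠ 0 := inv_ne_zero (by exact_mod_cast hn)
        refine ⟨((‖u‖ : ℂ))⁻¹ • u, fun _ => ⟨?_, ?_, (Z_smul hFF hu hcc).2⟩⟩
        · rw [mem_sphere_zero_iff_norm, norm_smul, norm_inv, Complex.norm_real, norm_norm,
            inv_mul_cancel₀ hn]
        · rw [Phi_smul hcc, hzu]
      · exact ⟨0, fun h0 => absurd h0 hz⟩
    choose v hv using h1
    have hev : ∀ᶠ n : ℕ in (𝓤 : Filter ℕ), z ∈ ball (0 : ℂ) (n + 1 : ℝ) := by
      filter_upwards [hcof ‖z‖] with n hn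
      exact mem_ball_zero_iff.2 (by linarith)
    obtain ⟨u, hu, hlu⟩ := (isCompact_sphere (0 : Fin (M + 1) → ℂ) 1).ultrafilter_le_nhds
      (𝓤.map v) (by
        rw [le_principal_iff]
        change ∀ᶠ n in (𝓤 : Filter ℕ), v n ∈ sphere (0 : Fin (M + 1) → ℂ) 1
        filter_upwards [hev] with n hn
        exact (hv n hn).1)
    have htv : Tendsto v 𝓤 (𝓝 u) := hlu
    have hu0 : u ≠ 0 := by
      rintro rfl
      rw [mem_sphere_zero_iff_norm, norm_zero] at hu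
      exact zero_ne_one hu
    refine ⟨Phi u, ⟨u, ⟨hu0, fun F hF => ?_⟩, rfl⟩, ?_⟩
    · have h1 : Tendsto (fun n => (Sum.elim (c n) (v n) : β ⊕ Fin (M + 1) → ℂ)) 𝓤
          (𝓝 (Sum.elim c' u)) := by
        rw [tendsto_pi_nhds]
        rintro (i | i)
        · exact (tendsto_pi_nhds.1 hc𝓤) i
        · exact (tendsto_pi_nhds.1 htv) i
      have h2 : Tendsto (fun n => eval (Sum.elim (c n) (v n) : β ⊕ Fin (M + 1) → ℂ) F) 𝓤
          (𝓝 (eval (Sum.elim c' u) F)) := ((MvPolynomial.continuous_eval F).tendsto _).comp h1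
      have h3 : Tendsto (fun n => eval (Sum.elim (c n) (v n) : β ⊕ Fin (M + 1) → ℂ) F) 𝓤
          (𝓝 0) := by
        refine tendsto_const_nhds.congr' ?_
        filter_upwards [hev] with n hn
        exact ((hv n hn).2.2 F hF).symm
      exact tendsto_nhds_unique h2 h3
    · have h1 : Tendsto (fun n => Phi (v n)) 𝓤 (𝓝 (Phi u)) :=
        (continuousAt_Phi hu0).tendsto.comp htv
      refine h1.congr' ?_
      filter_upwards [hev] with n hn
      exact (hv n hn).2.1.symm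
  choose H hHmem hHt using hlim
  have hPMH : ∀ z, H z ∈ PM := by
    intro z
    obtain ⟨u, hu, hz⟩ := hHmem z
    exact ⟨u, hu.1, hz⟩
  have hdiff : ∀ (n : ℕ) (z : ℂ), z ∈ ball (0 : ℂ) (n + 1 : ℝ) → DifferentiableAt ℝ (h n) z :=
    fun n z hz => ((hH' n).contDiffAt hz).differentiableAt (by norm_num)
  have hCC : ∀ R : ℝ, 0 < R → CConv (𝓤 : Filter ℕ) (ball 0 R) h H := by
    intro R hR z hz
    rw [Metric.tendsto_nhds]
    intro ε hε
    have h2 := Metric.tendsto_nhds.1 (hHt z) (ε / 2) (by positivity)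
    have h3 := hcof (2 * R)
    rw [eventually_prod_iff]
    refine ⟨_, h2.and h3, fun w => w ∈ ball (0 : ℂ) R ∧ dist w z < ε / 4, ?_, ?_⟩
    · have h4 : ∀ᶠ w in 𝓝 z, w ∈ ball (0 : ℂ) R := isOpen_ball.mem_nhds hz
      have h5 : ∀ᶠ w in 𝓝 z, dist w z < ε / 4 := ball_mem_nhds z (by positivity)
      exact h4.and h5
    · rintro n ⟨hn1, hn2⟩ w ⟨hw1, hw2⟩
      have h6 : ‖h n w - h n z‖ ≤ 2 * ‖w - z‖ := by
        have hsub : ball (0 : ℂ) R ⊆ ball (0 : ℂ) ((n + 1 : ℝ) / 2) :=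
          ball_subset_ball (by linarith)
        have hsub2 : ball (0 : ℂ) R ⊆ ball (0 : ℂ) (n + 1 : ℝ) :=
          ball_subset_ball (by linarith)
        exact (convex_ball (0 : ℂ) R).norm_image_sub_le_of_norm_fderiv_le
          (fun x hx => hdiff n x (hsub2 hx))
          (fun x hx => hHd n x (hsub hx)) hz hw1
      calc dist (h n w) (H z) ≤ dist (h n w) (h n z) + dist (h n z) (H z) := dist_triangle _ _ _
        _ < ε / 2 + ε / 2 := by
            refine add_lt_add ?_ hn1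
            rw [dist_eq_norm]
            rw [dist_eq_norm] at hw2
            linarith
        _ = ε := by ring
  have hev : ∀ R : ℝ, 0 < R → ∀ᶠ n in (𝓤 : Filter ℕ), HolP (ball 0 R) (h n) := by
    intro R _
    filter_upwards [hcof R] with n hn
    exact (hH' n).mono (ball_subset_ball (by linarith))
  have hl := fun (R : ℝ) (hR : 0 < R) => holP_limit isOpen_ball (hCC R hR)
    (hev R hR) (fun z _ => hPMH z)
  refine ⟨H, ?_, hHmem, ?_⟩
  · intro z _
    exact (hl (‖z‖ + 1) (by positivity)).1 z (mem_ball_zero_iff.2 (by linarith))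
  · have ht1 := ((hl 1 one_pos).2 0 (mem_ball_self one_pos)).norm
    refine tendsto_nhds_unique ht1 ?_
    simp only [hH0]
    exact tendsto_const_nhds

/-- removal of common zeros -/
def Cof : Prop := ∀ (M : ℕ) (u : Fin (M + 1) → ℂ → ℂ), (∀ i, Differentiable ℂ (u i)) →
  (∃ i j a b, u i a * u j b ≠ u j a * u i b) →
  ∃ f : Fin (M + 1) → ℂ → ℂ, (∀ i, Differentiable ℂ (f i)) ∧ (∀ t, ∃ i, f i t ≠ 0) ∧
    (∃ i j a b, f i a * f j b ≠ f j a * f i b) ∧
    ∀ t, (∃ k, u k t ≠ 0) → ∃ c : ℂ, c ≠ 0 ∧ ∀ i, u i t = c * f i t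

/-- an entire map into the fibre gives an entire curve in the fibre -/
theorem curve (hcof : Cof) {FF : Set (MvPolynomial (β ⊕ Fin (M + 1)) ℂ)} (hFF : ∀ F ∈ FF, IsRel F)
    {c : β → ℂ} {H : ℂ → Mat M} (hH : HolP univ H) (hS : ∀ z, ∃ u ∈ Z FF c, H z = Phi u)
    (hnc : ‖fderiv ℝ H 0‖ = 1) : ∃ f, FamCurve FF c f := by
  obtain ⟨F, hFd, ⟨z0, hz0⟩, hF⟩ := exists_lift hH
  obtain ⟨i0, hi0⟩ := Function.ne_iff.1 hz0
  have hFi : ∀ i, Differentiable ℂ fun z => F z i := fun i => differentiable_pi.1 hFd i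
  have hdense : Dense {z | F z i0 ≠ 0} := dense_ne (hFi i0) ⟨z0, hi0⟩
  have hne : ∀ w, F w i0 ≠ 0 → F w ≠ 0 := by
    intro w hw h0
    apply hw
    rw [h0]
    rfl
  have hprop : ∃ i j a b, F a i * F b j ≠ F a j * F b i := by
    by_contra hcon
    push Not at hcon
    have hconst : ∀ w, F w i0 ≠ 0 → H w = Phi (F z0) := by
      intro w hw
      have h1 : F w = (F w i0 / F z0 i0) • F z0 := by
        funext j
        rw [Pi.smul_apply, smul_eq_mul]
        have h2 := hcon i0 j w z0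
        have hi0' : F z0 i0 ≠ 0 := hi0
        field_simp
        linear_combination -h2
      rw [hF w (hne w hw), h1]
      exact Phi_smul (div_ne_zero hw hi0) _
    have hclosed : IsClosed {w | H w = Phi (F z0)} := by
      refine isClosed_eq ?_ continuous_const
      exact continuous_iff_continuousAt.2 fun w => hH.continuousAt (mem_univ w)
    have hall : ∀ w, H w = Phi (F z0) := fun w =>
      (hclosed.closure_subset_iff.2 fun w hw => hconst w hw) (hdense w)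
    have h3 : H = fun _ => Phi (F z0) := funext hall
    rw [h3] at hnc
    simp at hnc
  obtain ⟨f, hf1, hf2, hf3, hf4⟩ := hcof M (fun i t => F t i) hFi hprop
  refine ⟨f, hf1, hf2, fun G hG t => ?_, hf3⟩
  have hc : Continuous fun t => eval (Sum.elim c fun i => f i t) G := by
    refine (MvPolynomial.continuous_eval G).comp ?_
    refine continuous_pi ?_
    rintro (i | i)
    · exact continuous_const
    · exact (hf1 i).continuous
  have hclosed : IsClosed {t | eval (Sum.elim c fun i => f i t) G = 0} :=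
    isClosed_eq hc continuous_const
  have hsub : {z | F z i0 ≠ 0} ⊆ {t | eval (Sum.elim c fun i => f i t) G = 0} := by
    intro w hw
    obtain ⟨u, hu, hwu⟩ := hS w
    rw [hF w (hne w hw)] at hwu
    obtain ⟨l, hl, hlu⟩ := Phi_inj (hne w hw) hu.1 hwu
    obtain ⟨e, he, hew⟩ := hf4 w ⟨i0, hw⟩
    have h1 : u = (l * e) • fun i => f i w := by
      rw [hlu]
      funext i
      simp only [Pi.smul_apply, smul_eq_mul]
      rw [hew i]
      ring
    have h2 := hu.2 G hG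
    obtain ⟨s, hs⟩ := hFF G hG
    rw [h1, eval_scale hs] at h2
    exact (mul_eq_zero.1 h2).resolve_left (pow_ne_zero _ (mul_ne_zero hl he))
  exact (hclosed.closure_subset_iff.2 hsub) (hdense t)

theorem clo_of (hcof : Cof) : S_clo := by
  intro β _ M FF hFF
  apply isClosed_of_closure_subset
  intro c' hc'
  rw [mem_closure_iff_seq_limit] at hc'
  obtain ⟨c, hcS, hc⟩ := hc'
  choose f hf using hcS
  have h1 : ∀ n : ℕ, ∃ h : ℂ → Mat M, HolP (ball 0 (n + 1 : ℝ)) h ∧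
      (∀ z ∈ ball (0 : ℂ) (n + 1 : ℝ), ∃ u ∈ Z FF (c n), h z = Phi u) ∧
      (∀ z ∈ ball (0 : ℂ) ((n + 1 : ℝ) / 2), ‖fderiv ℝ h z‖ ≤ 2) ∧ ‖fderiv ℝ h 0‖ = 1 :=
    fun n => discs (hf n) (by positivity)
  choose h h2 h3 h4 h5 using h1
  obtain ⟨H, hH, hS, hnc⟩ := limit hFF hc h2 h3 h4 h5
  exact curve hcof hFF hH hS hnc

/-- **Removal of common zeros** (from the start library). -/
theorem cof : Cof := by
  rintro M u hu ⟨i, j, a, b, hab⟩
  obtain ⟨f, hf, hf'⟩ := Pool.Agent.Y221.PD.curve_of_entire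
    (L := FractionRing (MvPolynomial (Fin (M + 1)) ℂ))
    (x := fun i => algebraMap (MvPolynomial (Fin (M + 1)) ℂ)
      (FractionRing (MvPolynomial (Fin (M + 1)) ℂ)) (X i)) (u := u) hu
    (fun G _ hG t => by
      have hG' : MvPolynomial.aeval ((algebraMap (MvPolynomial (Fin (M + 1)) ℂ)
          (FractionRing (MvPolynomial (Fin (M + 1)) ℂ))) ∘
            fun i : Fin (M + 1) => (X i : MvPolynomial (Fin (M + 1)) ℂ)) G = 0 := hG
      have h1 := MvPolynomial.aeval_algebraMap_apply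
        (FractionRing (MvPolynomial (Fin (M + 1)) ℂ))
        (fun i : Fin (M + 1) => (X i : MvPolynomial (Fin (M + 1)) ℂ)) G
      rw [hG', aeval_X_left_apply] at h1
      have h0 : G = 0 := IsFractionRing.injective (MvPolynomial (Fin (M + 1)) ℂ)
        (FractionRing (MvPolynomial (Fin (M + 1)) ℂ)) (by rw [← h1, map_zero])
      rw [h0, map_zero]) hab
  exact ⟨f, hf.hol, hf.ne, hf.nonconst, hf'⟩

/-- **Brody's theorem for families**: the set of the fibres with entire curves is closed. -/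
theorem clo : S_clo := clo_of cof

end Pool.Agent.J6H76.FM
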